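import Pool.Agent.TTC.StmtsE

/-!
# Squad TTC (MP_160b6c_nt), row EXC
-/

set_option autoImplicit false

open Polynomial

namespace Pool.Agent.TTC.H10

theorem exc : ExcStmt := by
  intro a m hne z hz
  apply hne
  have hfd : (quin a).natDegree = 5 := by
    unfold quin
    compute_degree!
  have hgd : (derivative (quin a)).natDegree ≤ 4 := by
    have h1 := natDegree_derivative_le (quin a)
    omega
  have hhd : (derivative (derivative (quin a)) + C (m : ℂ) * quin a).natDegree ≤ 5 := by
    refine (natDegree_add_le _ _).trans (max_le ?_ ?_)
    · refine (natDegree_derivative_le _).trans ?_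
      omega
    · exact (natDegree_C_mul_le _ _).trans hfd.le
  obtain ⟨h, hh⟩ := hz
  have f0 : (quin a).eval z = 0 := by
    rw [hh]
    simp
  have f1 : (derivative (quin a)).eval z = 0 := by
    rw [hh]
    simp [derivative_mul, derivative_pow]
  have f2 : (derivative (derivative (quin a))).eval z = 0 := by
    rw [hh]
    simp [derivative_mul, derivative_pow]
  obtain ⟨P, Q, -, -, hPQ⟩ := exists_mul_add_mul_eq_C_resultant (derivative (quin a))
    (derivative (derivative (quin a)) + C (m : ℂ) * quin a) (m := 4) (n := 5) hgd hhd (by norm_num)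
  have h1 := congrArg (Polynomial.eval z) hPQ
  rw [eval_add, eval_mul, eval_mul, eval_add, eval_mul, eval_C, eval_C, f1, f2, f0] at h1
  unfold er
  rw [← h1]
  ring

end Pool.Agent.TTC.H10
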